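import Pool.Agent.Lib.MP_3cbb73_an.Mem.Rate
import Pool.Agent.Lib.MP_3cbb73_an.Mem.DataHalf

set_option autoImplicit false

namespace Pool.Agent.Results.MP_3cbb73_an.OrderHalfWideC1

open scoped RealInnerProductSpace

/-- A dictionary in `H`: a set of unit vectors with dense linear span. -/
def IsDictionary {H : Type*} [NormedAddCommGroup H] [InnerProductSpace ℝ H] (D : Set H) : Prop :=
  (∀ g ∈ D, ‖g‖ = 1) ∧ Dense ((Submodule.span ℝ D : Submodule ℝ H) : Set H)

/-- The class `RB(C₁, C₂)`: dictionaries that are Riesz bases with constants `C₁, C₂`. -/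
def RB (H : Type*) [NormedAddCommGroup H] [InnerProductSpace ℝ H] (C₁ C₂ : ℝ) : Set (Set H) :=
  {B | IsDictionary B ∧ ∀ (s : Finset H) (c : H → ℝ), (↑s : Set H) ⊆ B →
    C₁ * √(∑ g ∈ s, c g ^ 2) ≤ ‖∑ g ∈ s, c g • g‖ ∧
    ‖∑ g ∈ s, c g • g‖ ≤ C₂ * √(∑ g ∈ s, c g ^ 2)}

/-- `A₁(D)`: the closure of the set of finite sums `∑ c_g g` with `g ∈ D` and `∑ |c_g| ≤ 1`. -/
def A1 {H : Type*} [NormedAddCommGroup H] [InnerProductSpace ℝ H] (D : Set H) : Set H :=
  closure {f | ∃ (s : Finset H) (c : H → ℝ), (↑s : Set H) ⊆ D ∧ ∑ g ∈ s, |c g| ≤ 1 ∧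
    ∑ g ∈ s, c g • g = f}

/-- `F` is the sequence of residuals `F m = f_m = f - G_m(f, D)` of a realization of the Pure
Greedy Algorithm for `f` with respect to `D`. -/
def IsPGA {H : Type*} [NormedAddCommGroup H] [InnerProductSpace ℝ H] (D : Set H) (f : H)
    (F : ℕ → H) : Prop :=
  F 0 = f ∧ ∀ m, ∃ φ ∈ D, (∀ g ∈ D, |⟪F m, g⟫| ≤ |⟪F m, φ⟫|) ∧ F (m + 1) = F m - ⟪F m, φ⟫ • φ

/-- The set of all numbers `‖f - G_m(f, B)‖`, over all `B ∈ RB(C₁, C₂)`, all `f ∈ A₁(B)` and all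
realizations of the Pure Greedy Algorithm. -/
def errors (H : Type*) [NormedAddCommGroup H] [InnerProductSpace ℝ H] (C₁ C₂ : ℝ) (m : ℕ) :
    Set ℝ :=
  {t | ∃ B ∈ RB H C₁ C₂, ∃ f ∈ A1 B, ∃ F : ℕ → H, IsPGA B f F ∧ t = ‖F m‖}

/-- `γ(m, RB(C₁, C₂))`, the supremum of the errors. -/
noncomputable def γ (H : Type*) [NormedAddCommGroup H] [InnerProductSpace ℝ H] (C₁ C₂ : ℝ)
    (m : ℕ) : ℝ := sSup (errors H C₁ C₂ m)

section proof

open Pool.Agent.Lib.MP_3cbb73_an Real

variable {H : Type*} [NormedAddCommGroup H] [InnerProductSpace ℝ H]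

private lemma riesz_of_mem {C₁ C₂ : ℝ} {B : Set H} (h1 : 0.64 ≤ C₁)
    (hB : B ∈ RB H C₁ C₂) : Riesz (fun i : B => (i : H)) Mem.DataHalf.par.t (C₂ ^ 2) := by
  classical
  have ht : Mem.DataHalf.par.t = 256 / 625 := rfl
  obtain ⟨⟨hn, -⟩, hR⟩ := hB
  have key : ∀ (s : Finset B) (c : B → ℝ), ∃ (s' : Finset H) (c' : H → ℝ), (↑s' : Set H) ⊆ B ∧
      ∑ g ∈ s', c' g • g = ∑ i ∈ s, c i • (i : H) ∧ ∑ g ∈ s', c' g ^ 2 = ∑ i ∈ s, c i ^ 2 := by
    intro s c
    refine ⟨s.map (Function.Embedding.subtype _), fun h => if hh : h ∈ B then c ⟨h, hh⟩ else 0,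
      ?_, ?_, ?_⟩
    · intro h hh
      simp only [Finset.coe_map, Set.mem_image, Function.Embedding.subtype_apply] at hh
      obtain ⟨y, _, rfl⟩ := hh
      exact y.2
    · rw [Finset.sum_map]
      apply Finset.sum_congr rfl
      intro i _
      simp
    · rw [Finset.sum_map]
      apply Finset.sum_congr rfl
      intro i _
      simp
  refine ⟨fun i => hn i i.2, fun s c => ?_, fun s c => ?_⟩
  · obtain ⟨s', c', hs', e1, e2⟩ := key s c
    have h := (hR s' c' hs').1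
    rw [e1, e2] at h
    have hS : 0 ≤ ∑ i ∈ s, c i ^ 2 := Finset.sum_nonneg (fun i _ => sq_nonneg _)
    have h3 : (C₁ * √(∑ i ∈ s, c i ^ 2)) ^ 2 ≤ ‖∑ i ∈ s, c i • (i : H)‖ ^ 2 :=
      pow_le_pow_left₀ (by positivity) h 2
    rw [mul_pow, Real.sq_sqrt hS] at h3
    refine le_trans ?_ h3
    apply mul_le_mul_of_nonneg_right _ hS
    rw [ht]
    nlinarith
  · obtain ⟨s', c', hs', e1, e2⟩ := key s c
    have h := (hR s' c' hs').2
    rw [e1, e2] at h
    have hS : 0 ≤ ∑ i ∈ s, c i ^ 2 := Finset.sum_nonneg (fun i _ => sq_nonneg _)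
    have h3 := pow_le_pow_left₀ (norm_nonneg _) h 2
    rwa [mul_pow, Real.sq_sqrt hS] at h3

private lemma mem_closure_index {B : Set H} {f : H} (hf : f ∈ A1 B) :
    f ∈ closure {f | ∃ (s : Finset B) (c : B → ℝ), ∑ i ∈ s, |c i| ≤ 1 ∧
      ∑ i ∈ s, c i • (i : H) = f} := by
  classical
  refine closure_mono ?_ hf
  rintro f ⟨s, c, hs, h1, h2⟩
  refine ⟨s.subtype (· ∈ B), fun i => c i, ?_, ?_⟩
  · rw [Finset.sum_subtype_of_mem (fun g : H => |c g|) (fun x hx => hs hx)]
    exact h1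
  · rw [Finset.sum_subtype_of_mem (fun g : H => c g • g) (fun x hx => hs hx)]
    exact h2

/-- The constant in the upper bound. -/
private noncomputable def Cup (C₂ : ℝ) : ℝ :=
  (1 + Mem.DataHalf.par.c (C₂ ^ 2)) / (1 - Mem.DataHalf.par.η * (1 + Mem.DataHalf.par.τ) / (4 * Mem.DataHalf.par.t))

private lemma Cup_pos (C₂ : ℝ) (h2 : 1 ≤ C₂ ^ 2) : 0 < Cup C₂ := by
  unfold Cup
  apply div_pos
  · have := Mem.DataHalf.par.c_nonneg (q := C₂ ^ 2) (by positivity)
    linarith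
  · have ht := Mem.DataHalf.par.ht
    rw [sub_pos, div_lt_one (by positivity)]
    exact Mem.DataHalf.par.hηt

private lemma upper {C₁ C₂ : ℝ} {B : Set H} (h1 : 0.64 ≤ C₁)
    (h2' : 1 ≤ C₂ ^ 2) (hB : B ∈ RB H C₁ C₂) {f : H} (hf : f ∈ A1 B) {F : ℕ → H}
    (hF : IsPGA B f F) (m : ℕ) : ‖F m‖ ≤ Cup C₂ / √(m + 1) := by
  have hR := riesz_of_mem h1 hB
  obtain ⟨x, hx1, hx2, hx3⟩ := exists_coeff hR Mem.DataHalf.par.ht (by positivity)
    (mem_closure_index hf)
  obtain ⟨hF0, hF1⟩ := hF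
  choose φ hφB hmax hstep using hF1
  have hr := Mem.rate_half Mem.DataHalf.par rfl hR (by positivity)
      (F := F) (φ := fun k => (⟨φ k, hφB k⟩ : B))
      (fun k => hstep k) (fun k i => hmax k i i.2) hx1 hx2 (by rw [hF0]; exact hx3) m
  have hC := Cup_pos C₂ h2'
  rw [le_div_iff₀ (by positivity)]
  have h4 : (‖F m‖ * √(m + 1)) ^ 2 ≤ Cup C₂ ^ 2 := by
    rw [mul_pow, Real.sq_sqrt (by positivity)]
    rw [le_div_iff₀ (by positivity)] at hr
    exact hr
  exact le_of_sq_le_sq h4 hC.le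

private lemma lower {C₁ C₂ : ℝ} (h1 : C₁ ≤ 1) (h2 : 1 ≤ C₂) [CompleteSpace H]
    (hinf : ¬ FiniteDimensional ℝ H) (m : ℕ) (hm : 1 ≤ m) :
    1 / (2 * √m) ∈ errors H C₁ C₂ m := by
  classical
  obtain ⟨w, b, hb⟩ := exists_hilbertBasis ℝ H
  have hon : Orthonormal ℝ (fun i : w => (i : H)) := by
    have := b.orthonormal
    rwa [hb] at this
  have hdense : Dense ((Submodule.span ℝ w : Submodule ℝ H) : Set H) := by
    have := b.dense_span
    rw [hb, Subtype.range_coe] at this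
    exact (Submodule.dense_iff_topologicalClosure_eq_top).2 this
  have hwinf : w.Infinite := by
    intro hfin
    apply hinf
    have hfd : FiniteDimensional ℝ (Submodule.span ℝ w) := FiniteDimensional.span_of_finite ℝ hfin
    have hcl : (Submodule.span ℝ w).topologicalClosure = Submodule.span ℝ w :=
      (Submodule.closed_of_finiteDimensional _).submodule_topologicalClosure_eq
    have htop : (Submodule.span ℝ w).topologicalClosure = ⊤ :=
      (Submodule.dense_iff_topologicalClosure_eq_top).1 hdense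
    rw [hcl] at htop
    have : FiniteDimensional ℝ (⊤ : Submodule ℝ H) := by rw [← htop]; exact hfd
    exact Module.finite_def.2 (Module.Finite.iff_fg.1 this)
  have : Infinite w := hwinf.to_subtype
  let e : ℕ ↪ w := Infinite.natEmbedding w
  have hee : ∀ i j, ⟪((e i : w) : H), (e j : H)⟫ = if i = j then (1 : ℝ) else 0 := by
    intro i j
    have := orthonormal_iff_ite.1 hon (e i) (e j)
    rw [this]
    by_cases h : i = j
    · simp [h]
    · rw [if_neg h, if_neg (fun h' => h (e.injective h'))]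
  set a : ℝ := 1 / (2 * m) with ha
  have hm0 : (0 : ℝ) < m := by exact_mod_cast hm
  have ha0 : 0 < a := by positivity
  set F : ℕ → H := fun k => ∑ j ∈ Finset.Ico k (2 * m), a • (e j : H) with hF
  have hFg : ∀ k (g : w), |⟪F k, (g : H)⟫| ≤ if k < 2 * m then a else 0 := by
    intro k g
    rw [hF]
    simp only [sum_inner, real_inner_smul_left]
    by_cases hk : k < 2 * m
    · rw [if_pos hk]
      by_cases hg : ∃ j, e j = g
      · obtain ⟨j, rfl⟩ := hg
        simp only [hee, mul_ite, mul_one, mul_zero]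
        rw [Finset.sum_ite_eq' (Finset.Ico k (2 * m)) j (fun _ => a)]
        split_ifs
        · rw [abs_of_pos ha0]
        · rw [abs_zero]; exact ha0.le
      · have h0 : ∀ j ∈ Finset.Ico k (2 * m), a * ⟪((e j : w) : H), (g : H)⟫ = 0 := by
          intro j _
          have := orthonormal_iff_ite.1 hon (e j) g
          rw [this, if_neg (fun h' => hg ⟨j, h'⟩), mul_zero]
        rw [Finset.sum_eq_zero h0, abs_zero]
        exact ha0.le
    · rw [if_neg hk, Finset.Ico_eq_empty (by omega)]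
      simp
  have hFe : ∀ k, ⟪F k, (e k : H)⟫ = if k < 2 * m then a else 0 := by
    intro k
    rw [hF]
    simp only [sum_inner, real_inner_smul_left, hee, mul_ite, mul_one, mul_zero]
    rw [Finset.sum_ite_eq' (Finset.Ico k (2 * m)) k (fun _ => a)]
    simp
  refine ⟨w, ⟨⟨fun g hg => ?_, hdense⟩, fun s c hs => ?_⟩, F 0, ?_, F, ⟨rfl, fun k => ?_⟩, ?_⟩
  · exact hon.1 ⟨g, hg⟩
  · have hnorm : ‖∑ g ∈ s, c g • g‖ = √(∑ g ∈ s, c g ^ 2) := by
      have hon' : Orthonormal ℝ (fun i : s => (i : H)) := by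
        have := hon.comp (fun i : s => (⟨i, hs i.2⟩ : w)) (fun i j h =>
          Subtype.ext (congrArg (fun z : w => (z : H)) h))
        exact this
      rw [← Real.sqrt_sq (norm_nonneg (∑ g ∈ s, c g • g))]
      congr 1
      rw [← Finset.sum_coe_sort s (fun g => c g • g), ← Finset.sum_coe_sort s (fun g => c g ^ 2)]
      rw [← real_inner_self_eq_norm_sq, hon'.inner_sum]
      apply Finset.sum_congr rfl
      intro i _
      rw [sq]
      rfl
    rw [hnorm]
    have := Real.sqrt_nonneg (∑ g ∈ s, c g ^ 2)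
    constructor <;> nlinarith
  · apply subset_closure
    refine ⟨(Finset.range (2 * m)).image (fun j => (e j : H)), fun _ => a, ?_, ?_, ?_⟩
    · intro h hh
      simp only [Finset.coe_image, Set.mem_image] at hh
      obtain ⟨j, _, rfl⟩ := hh
      exact (e j).2
    · rw [Finset.sum_image (fun i _ j _ h => e.injective (Subtype.ext h))]
      simp only [Finset.sum_const, Finset.card_range, nsmul_eq_mul]
      rw [abs_of_pos ha0, ha]
      push_cast
      field_simp
      exact le_refl _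
    · rw [Finset.sum_image (fun i _ j _ h => e.injective (Subtype.ext h)), hF]
      simp
  · refine ⟨e k, (e k).2, fun g hg => ?_, ?_⟩
    · have h1 := hFg k ⟨g, hg⟩
      rw [hFe k]
      refine h1.trans ?_
      exact le_abs_self _
    · rw [hFe k]
      by_cases hk : k < 2 * m
      · rw [if_pos hk, hF]
        simp only
        rw [← Finset.sum_Ioo_add_eq_sum_Ico hk]
        have : Finset.Ioo k (2 * m) = Finset.Ico (k + 1) (2 * m) := by
          ext i; simp
        rw [this]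
        abel
      · rw [if_neg hk, hF]
        simp only
        rw [Finset.Ico_eq_empty (by omega), Finset.Ico_eq_empty (by omega)]
        simp
  · have hsq : ‖F m‖ ^ 2 = 1 / (4 * m) := by
      rw [← real_inner_self_eq_norm_sq, hF]
      simp only [sum_inner, inner_sum, real_inner_smul_left, real_inner_smul_right, hee, mul_ite,
        mul_one, mul_zero]
      rw [Finset.sum_congr rfl (fun i hi => Finset.sum_ite_eq' (Finset.Ico m (2 * m)) i _)]
      rw [Finset.sum_congr rfl (fun i hi => if_pos hi)]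
      simp only [Finset.sum_const, Nat.card_Ico, nsmul_eq_mul]
      have : ((2 * m - m : ℕ) : ℝ) = m := by
        rw [two_mul, Nat.add_sub_cancel]
      rw [this, ha]
      field_simp
      try norm_num
    have h3 : (1 / (2 * √m)) ^ 2 = ‖F m‖ ^ 2 := by
      rw [hsq, div_pow, mul_pow, Real.sq_sqrt hm0.le]
      norm_num
    exact (pow_left_inj₀ (by positivity) (norm_nonneg _) two_ne_zero).1 h3

end proof

/-- For `0.64 ≤ C₁ ≤ 1 ≤ C₂` the quantity `γ(m, RB(C₁, C₂))` has the exact order `m^{-1/2}`, with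
constants depending only on `C₁, C₂`. -/
theorem result (C₁ C₂ : ℝ) (h1 : 0.64 ≤ C₁) (h1' : C₁ ≤ 1) (h2 : 1 ≤ C₂) :
    ∃ c C : ℝ, 0 < c ∧ 0 < C ∧
      ∀ (H : Type) [NormedAddCommGroup H] [InnerProductSpace ℝ H] [CompleteSpace H]
        [TopologicalSpace.SeparableSpace H], ¬ FiniteDimensional ℝ H → ∀ m : ℕ, 1 ≤ m →
        BddAbove (errors H C₁ C₂ m) ∧
        c * (m : ℝ) ^ (-(1 / 2) : ℝ) ≤ γ H C₁ C₂ m ∧
        γ H C₁ C₂ m ≤ C * (m : ℝ) ^ (-(1 / 2) : ℝ) := by
  have h2' : 1 ≤ C₂ ^ 2 := by nlinarith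
  refine ⟨1 / 2, Cup C₂, by norm_num, Cup_pos C₂ h2', ?_⟩
  intro H _ _ _ _ hinf m hm
  have hm0 : (0 : ℝ) < m := by exact_mod_cast hm
  have hpow : (m : ℝ) ^ (-(1 / 2) : ℝ) = 1 / √m := by
    rw [Real.rpow_neg hm0.le, ← Real.sqrt_eq_rpow, one_div]
  have hub : ∀ t ∈ errors H C₁ C₂ m, t ≤ Cup C₂ * (m : ℝ) ^ (-(1 / 2) : ℝ) := by
    rintro t ⟨B, hB, f, hf, F, hF, rfl⟩
    refine (upper h1 h2' hB hf hF m).trans ?_
    rw [hpow, mul_one_div]
    apply div_le_div_of_nonneg_left (Cup_pos C₂ h2').le (Real.sqrt_pos.2 hm0)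
    apply Real.sqrt_le_sqrt
    linarith
  have hmem := lower (H := H) h1' h2 hinf m hm
  refine ⟨⟨_, hub⟩, ?_, csSup_le ⟨_, hmem⟩ hub⟩
  refine le_trans (le_of_eq ?_) (le_csSup ⟨_, hub⟩ hmem)
  rw [hpow]
  field_simp

end Pool.Agent.Results.MP_3cbb73_an.OrderHalfWideC1
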