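import Pool.Agent.Lib.MP_3cbb73_an.Mem.Rate
import Pool.Agent.Lib.MP_3cbb73_an.Mem.Data45
import Pool.Agent.Lib.MP_3cbb73_an.Mem.Data40
import Pool.Agent.Lib.MP_3cbb73_an.Mem.Data35
import Pool.Agent.Lib.MP_3cbb73_an.Mem.Data33
import Pool.Agent.Lib.MP_3cbb73_an.Mem.Data30

set_option autoImplicit false

namespace Pool.Agent.Results.MP_3cbb73_an.RatesBelowHalf

open scoped RealInnerProductSpace

/-- A dictionary in `H`: a set of unit vectors with dense linear span. -/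
def IsDictionary {H : Type*} [NormedAddCommGroup H] [InnerProductSpace ℝ H] (D : Set H) : Prop :=
  (∀ g ∈ D, ‖g‖ = 1) ∧ Dense ((Submodule.span ℝ D : Submodule ℝ H) : Set H)

/-- The class `RB(C₁, C₂)`: dictionaries that are Riesz bases with constants `C₁, C₂`. -/
def RB (H : Type*) [NormedAddCommGroup H] [InnerProductSpace ℝ H] (C₁ C₂ : ℝ) : Set (Set H) :=
  {B | IsDictionary B ∧ ∀ (s : Finset H) (c : H → ℝ), (↑s : Set H) ⊆ B →
    C₁ * √(∑ g ∈ s, c g ^ 2) ≤ ‖∑ g ∈ s, c g • g‖ ∧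
    ‖∑ g ∈ s, c g • g‖ ≤ C₂ * √(∑ g ∈ s, c g ^ 2)}

/-- `A₁(D)`: the closure of the set of finite sums `∑ c_g g` with `g ∈ D` and `∑ |c_g| ≤ 1`. -/
def A1 {H : Type*} [NormedAddCommGroup H] [InnerProductSpace ℝ H] (D : Set H) : Set H :=
  closure {f | ∃ (s : Finset H) (c : H → ℝ), (↑s : Set H) ⊆ D ∧ ∑ g ∈ s, |c g| ≤ 1 ∧
    ∑ g ∈ s, c g • g = f}

/-- `F` is the sequence of residuals `F m = f_m = f - G_m(f, D)` of a realization of the Pure
Greedy Algorithm for `f` with respect to `D`. -/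
def IsPGA {H : Type*} [NormedAddCommGroup H] [InnerProductSpace ℝ H] (D : Set H) (f : H)
    (F : ℕ → H) : Prop :=
  F 0 = f ∧ ∀ m, ∃ φ ∈ D, (∀ g ∈ D, |⟪F m, g⟫| ≤ |⟪F m, φ⟫|) ∧ F (m + 1) = F m - ⟪F m, φ⟫ • φ

/-- The set of all numbers `‖f - G_m(f, B)‖`, over all `B ∈ RB(C₁, C₂)`, all `f ∈ A₁(B)` and all
realizations of the Pure Greedy Algorithm. -/
def errors (H : Type*) [NormedAddCommGroup H] [InnerProductSpace ℝ H] (C₁ C₂ : ℝ) (m : ℕ) :
    Set ℝ :=
  {t | ∃ B ∈ RB H C₁ C₂, ∃ f ∈ A1 B, ∃ F : ℕ → H, IsPGA B f F ∧ t = ‖F m‖}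

/-- `γ(m, RB(C₁, C₂))`, the supremum of the errors. -/
noncomputable def γ (H : Type*) [NormedAddCommGroup H] [InnerProductSpace ℝ H] (C₁ C₂ : ℝ)
    (m : ℕ) : ℝ := sSup (errors H C₁ C₂ m)

/-- The exponent `r` is admissible for all Riesz bases with lower constant `C₁ ≥ a`: there is a
constant `C`, depending only on `C₂`, with `γ(m, RB(C₁, C₂)) ≤ C m^{-r}` for all `m ≥ 1`. -/
def RateFrom (a r : ℝ) : Prop :=
  ∀ C₂ : ℝ, 1 ≤ C₂ → ∃ C : ℝ, 0 < C ∧ ∀ C₁ : ℝ, a ≤ C₁ → C₁ ≤ 1 →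
    ∀ (H : Type) [NormedAddCommGroup H] [InnerProductSpace ℝ H] [CompleteSpace H]
      [TopologicalSpace.SeparableSpace H], ¬ FiniteDimensional ℝ H → ∀ m : ℕ, 1 ≤ m →
      BddAbove (errors H C₁ C₂ m) ∧ γ H C₁ C₂ m ≤ C * (m : ℝ) ^ (-r)

section proof

open Pool.Agent.Lib.MP_3cbb73_an Real

variable {H : Type*} [NormedAddCommGroup H] [InnerProductSpace ℝ H]

private lemma riesz_of_mem {C₁ C₂ : ℝ} {B : Set H} {t : ℝ} (h0 : 0 ≤ C₁) (h1 : t ≤ C₁ ^ 2)
    (hB : B ∈ RB H C₁ C₂) : Riesz (fun i : B => (i : H)) t (C₂ ^ 2) := by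
  classical
  obtain ⟨⟨hn, -⟩, hR⟩ := hB
  have key : ∀ (s : Finset B) (c : B → ℝ), ∃ (s' : Finset H) (c' : H → ℝ), (↑s' : Set H) ⊆ B ∧
      ∑ g ∈ s', c' g • g = ∑ i ∈ s, c i • (i : H) ∧ ∑ g ∈ s', c' g ^ 2 = ∑ i ∈ s, c i ^ 2 := by
    intro s c
    refine ⟨s.map (Function.Embedding.subtype _), fun h => if hh : h ∈ B then c ⟨h, hh⟩ else 0,
      ?_, ?_, ?_⟩
    · intro h hh
      simp only [Finset.coe_map, Set.mem_image, Function.Embedding.subtype_apply] at hh
      obtain ⟨y, _, rfl⟩ := hh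
      exact y.2
    · rw [Finset.sum_map]
      apply Finset.sum_congr rfl
      intro i _
      simp
    · rw [Finset.sum_map]
      apply Finset.sum_congr rfl
      intro i _
      simp
  refine ⟨fun i => hn i i.2, fun s c => ?_, fun s c => ?_⟩
  · obtain ⟨s', c', hs', e1, e2⟩ := key s c
    have h := (hR s' c' hs').1
    rw [e1, e2] at h
    have hS : 0 ≤ ∑ i ∈ s, c i ^ 2 := Finset.sum_nonneg (fun i _ => sq_nonneg _)
    have h3 : (C₁ * √(∑ i ∈ s, c i ^ 2)) ^ 2 ≤ ‖∑ i ∈ s, c i • (i : H)‖ ^ 2 :=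
      pow_le_pow_left₀ (by positivity) h 2
    rw [mul_pow, Real.sq_sqrt hS] at h3
    refine le_trans ?_ h3
    apply mul_le_mul_of_nonneg_right _ hS
    exact h1
  · obtain ⟨s', c', hs', e1, e2⟩ := key s c
    have h := (hR s' c' hs').2
    rw [e1, e2] at h
    have hS : 0 ≤ ∑ i ∈ s, c i ^ 2 := Finset.sum_nonneg (fun i _ => sq_nonneg _)
    have h3 := pow_le_pow_left₀ (norm_nonneg _) h 2
    rwa [mul_pow, Real.sq_sqrt hS] at h3

private lemma mem_closure_index {B : Set H} {f : H} (hf : f ∈ A1 B) :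
    f ∈ closure {f | ∃ (s : Finset B) (c : B → ℝ), ∑ i ∈ s, |c i| ≤ 1 ∧
      ∑ i ∈ s, c i • (i : H) = f} := by
  classical
  refine closure_mono ?_ hf
  rintro f ⟨s, c, hs, h1, h2⟩
  refine ⟨s.subtype (· ∈ B), fun i => c i, ?_, ?_⟩
  · rw [Finset.sum_subtype_of_mem (fun g : H => |c g|) (fun x hx => hs hx)]
    exact h1
  · rw [Finset.sum_subtype_of_mem (fun g : H => c g • g) (fun x hx => hs hx)]
    exact h2

/-- from the parameters of a potential to the rate -/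
private lemma general (p : Mem.MPar) {a e r : ℝ} (ha : 0 ≤ a) (hpa : p.t ≤ a ^ 2) (he : 0 < e)
    (he1 : e ≤ 1) (hθe : p.θ ^ 2 / p.s ≤ p.θ ^ e) (hr : e / (2 * (2 - e)) = r) :
    RateFrom a r := by
  intro C₂ h2
  have h2' : 1 ≤ C₂ ^ 2 := by nlinarith
  have hq : 0 < C₂ ^ 2 := by positivity
  set C : ℝ := (1 + p.c (C₂ ^ 2)) / (1 - p.η * (1 + p.τ) / (4 * p.t)) with hC
  have hC0 : 0 < C := by
    rw [hC]
    apply div_pos
    · have := p.c_nonneg hq
      linarith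
    · have ht := p.ht
      rw [sub_pos, div_lt_one (by positivity)]
      exact p.hηt
  refine ⟨C, hC0, ?_⟩
  intro C₁ h1 h1' H _ _ _ _ _ m hm
  have hm0 : (0 : ℝ) < m := by exact_mod_cast hm
  have hr0 : 0 ≤ r := by
    rw [← hr]
    apply div_nonneg he.le
    linarith
  have hub : ∀ t ∈ errors H C₁ C₂ m, t ≤ C * (m : ℝ) ^ (-r) := by
    rintro t ⟨B, hB, f, hf, F, ⟨hF0, hF1⟩, rfl⟩
    have hR : Riesz (fun i : B => (i : H)) p.t (C₂ ^ 2) :=
      riesz_of_mem (ha.trans h1) (hpa.trans (pow_le_pow_left₀ ha h1 2)) hB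
    obtain ⟨x, hx1, hx2, hx3⟩ := exists_coeff hR p.ht hq (mem_closure_index hf)
    choose φ hφB hmax hstep using hF1
    have h := Mem.rate_pow p he he1 hθe hR hq (F := F) (φ := fun k => (⟨φ k, hφB k⟩ : B))
      (fun k => hstep k) (fun k i => hmax k i i.2) hx1 hx2 (by rw [hF0]; exact hx3) m
    rw [hr] at h
    refine h.trans ?_
    apply mul_le_mul_of_nonneg_left _ hC0.le
    rw [Real.rpow_neg (by positivity), Real.rpow_neg hm0.le]
    apply inv_anti₀ (Real.rpow_pos_of_pos hm0 r)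
    exact Real.rpow_le_rpow hm0.le (by linarith) hr0
  refine ⟨⟨_, hub⟩, ?_⟩
  have h0 : 0 ≤ C * (m : ℝ) ^ (-r) := by positivity
  exact Real.sSup_le hub h0

private lemma le_rpow_div {x y : ℝ} (hx : 0 < x) (hy : 0 < y) {k l : ℕ} (hl : l ≠ 0)
    (h : x ^ l ≤ y ^ k) : x ≤ y ^ ((k : ℝ) / l) := by
  have hl0 : (0 : ℝ) < l := by exact_mod_cast Nat.pos_of_ne_zero hl
  have h1 := Real.rpow_le_rpow (by positivity) h (by positivity : (0 : ℝ) ≤ 1 / l)
  rw [← Real.rpow_natCast x, ← Real.rpow_natCast y, ← Real.rpow_mul hx.le, ← Real.rpow_mul hy.le,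
    mul_one_div_cancel hl0.ne', Real.rpow_one, mul_one_div] at h1
  exact h1

private lemma row45 : RateFrom 0.607 (9 / 20) := by
  refine general Mem.Data45.par (e := 18 / 19) (by norm_num) ?_ (by norm_num) (by norm_num) ?_
    (by norm_num)
  · rw [Mem.Data45.par_t]; norm_num
  · rw [Mem.Data45.par_θ, Mem.Data45.par_s]
    have := le_rpow_div (x := (999 / 1000) ^ 2 / (998947397 / 1000000000)) (y := 999 / 1000)
      (by norm_num) (by norm_num) (k := 18) (l := 19) (by norm_num) (by norm_num)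
    simpa using this

private lemma row40 : RateFrom 0.568 (2 / 5) := by
  refine general Mem.Data40.par (e := 8 / 9) (by norm_num) ?_ (by norm_num) (by norm_num) ?_
    (by norm_num)
  · rw [Mem.Data40.par_t]; norm_num
  · rw [Mem.Data40.par_θ, Mem.Data40.par_s]
    have := le_rpow_div (x := (999 / 1000) ^ 2 / (998888951 / 1000000000)) (y := 999 / 1000)
      (by norm_num) (by norm_num) (k := 8) (l := 9) (by norm_num) (by norm_num)
    simpa using this

private lemma row35 : RateFrom 0.523 (7 / 20) := by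
  refine general Mem.Data35.par (e := 14 / 17) (by norm_num) ?_ (by norm_num) (by norm_num) ?_
    (by norm_num)
  · rw [Mem.Data35.par_t]; norm_num
  · rw [Mem.Data35.par_θ, Mem.Data35.par_s]
    have := le_rpow_div (x := (999 / 1000) ^ 2 / (499411817 / 500000000)) (y := 999 / 1000)
      (by norm_num) (by norm_num) (k := 14) (l := 17) (by norm_num) (by norm_num)
    simpa using this

private lemma row33 : RateFrom 0.507 (1 / 3) := by
  refine general Mem.Data33.par (e := 4 / 5) (by norm_num) ?_ (by norm_num) (by norm_num) ?_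
    (by norm_num)
  · rw [Mem.Data33.par_t]; norm_num
  · rw [Mem.Data33.par_θ, Mem.Data33.par_s]
    have := le_rpow_div (x := (999 / 1000) ^ 2 / (998800121 / 1000000000)) (y := 999 / 1000)
      (by norm_num) (by norm_num) (k := 4) (l := 5) (by norm_num) (by norm_num)
    simpa using this

private lemma row30 : RateFrom 0.471 (3 / 10) := by
  refine general Mem.Data30.par (e := 3 / 4) (by norm_num) ?_ (by norm_num) (by norm_num) ?_
    (by norm_num)
  · rw [Mem.Data30.par_t]; norm_num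
  · rw [Mem.Data30.par_θ, Mem.Data30.par_s]
    have := le_rpow_div (x := (1499 / 1500) ^ 2 / (999166737 / 1000000000)) (y := 1499 / 1500)
      (by norm_num) (by norm_num) (k := 3) (l := 4) (by norm_num) (by norm_num)
    simpa using this

end proof

/-- Exponents of the Pure Greedy Algorithm over Riesz bases, below `1/2`. -/
theorem result :
    RateFrom 0.607 (9 / 20) ∧ RateFrom 0.568 (2 / 5) ∧ RateFrom 0.523 (7 / 20) ∧
    RateFrom 0.507 (1 / 3) ∧ RateFrom 0.471 (3 / 10) :=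
  ⟨row45, row40, row35, row33, row30⟩

end Pool.Agent.Results.MP_3cbb73_an.RatesBelowHalf
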