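import Pool.Agent.Lib.MP_3cbb73_an.Slow.CertC

set_option autoImplicit false

/-!
# The pure greedy algorithm over Riesz bases is slower than `m^{-1/2}` for small `C₁`
-/

namespace Pool.Agent.Results.MP_3cbb73_an.SlowSmallC1

open Pool.Agent.Lib.MP_3cbb73_an

/-- For `0 < C₁ ≤ 0.458` and `C₂ ≥ 2.2316` the quantity `γ(m, RB(C₁, C₂))` is at least
`c m^{-9/20}`, so it is not of the order `m^{-1/2}`. -/
theorem result (C₁ C₂ : ℝ) (h1 : 0 < C₁) (h1' : C₁ ≤ 0.458) (h2 : 2.2316 ≤ C₂) :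
    ∃ c : ℝ, 0 < c ∧
      ∀ (H : Type) [NormedAddCommGroup H] [InnerProductSpace ℝ H] [CompleteSpace H]
        [TopologicalSpace.SeparableSpace H], ¬ FiniteDimensional ℝ H → ∀ m : ℕ, 1 ≤ m →
        BddAbove (errors H C₁ C₂ m) ∧
        c * (m : ℝ) ^ (-(9 / 20) : ℝ) ≤ γ H C₁ C₂ m := by
  obtain ⟨C, ht, hT, hκ⟩ := Slow.DataC.cert
  obtain ⟨c, hc, h⟩ := C.gamma (C₁ := C₁) (C₂ := C₂) (by rw [ht]; nlinarith) (by linarith)
    (by rw [hT]; nlinarith)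
  refine ⟨c, hc, ?_⟩
  intro H _ _ _ _ hinf m hm
  have := h H hinf m hm
  rwa [hκ] at this

end Pool.Agent.Results.MP_3cbb73_an.SlowSmallC1
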