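import Pool.Agent.Lib.MP_3cbb73_an.Upper.LookRate
import Pool.Agent.Lib.MP_3cbb73_an.Upper.Coercive2
import Pool.Agent.Lib.MP_3cbb73_an.Upper.Choice

set_option autoImplicit false

namespace Pool.Agent.Results.MP_3cbb73_an.UpperRateAllC1

open scoped RealInnerProductSpace

/-- A dictionary in `H`: a set of unit vectors with dense linear span. -/
def IsDictionary {H : Type*} [NormedAddCommGroup H] [InnerProductSpace ℝ H] (D : Set H) : Prop :=
  (∀ g ∈ D, ‖g‖ = 1) ∧ Dense ((Submodule.span ℝ D : Submodule ℝ H) : Set H)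

/-- The class `RB(C₁, C₂)`: dictionaries that are Riesz bases with constants `C₁, C₂`. -/
def RB (H : Type*) [NormedAddCommGroup H] [InnerProductSpace ℝ H] (C₁ C₂ : ℝ) : Set (Set H) :=
  {B | IsDictionary B ∧ ∀ (s : Finset H) (c : H → ℝ), (↑s : Set H) ⊆ B →
    C₁ * √(∑ g ∈ s, c g ^ 2) ≤ ‖∑ g ∈ s, c g • g‖ ∧
    ‖∑ g ∈ s, c g • g‖ ≤ C₂ * √(∑ g ∈ s, c g ^ 2)}

/-- `A₁(D)`: the closure of the set of finite sums `∑ c_g g` with `g ∈ D` and `∑ |c_g| ≤ 1`. -/
def A1 {H : Type*} [NormedAddCommGroup H] [InnerProductSpace ℝ H] (D : Set H) : Set H :=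
  closure {f | ∃ (s : Finset H) (c : H → ℝ), (↑s : Set H) ⊆ D ∧ ∑ g ∈ s, |c g| ≤ 1 ∧
    ∑ g ∈ s, c g • g = f}

/-- `F` is the sequence of residuals `F m = f_m = f - G_m(f, D)` of a realization of the Pure
Greedy Algorithm for `f` with respect to `D`. -/
def IsPGA {H : Type*} [NormedAddCommGroup H] [InnerProductSpace ℝ H] (D : Set H) (f : H)
    (F : ℕ → H) : Prop :=
  F 0 = f ∧ ∀ m, ∃ φ ∈ D, (∀ g ∈ D, |⟪F m, g⟫| ≤ |⟪F m, φ⟫|) ∧ F (m + 1) = F m - ⟪F m, φ⟫ • φ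

/-- The set of all numbers `‖f - G_m(f, B)‖`, over all `B ∈ RB(C₁, C₂)`, all `f ∈ A₁(B)` and all
realizations of the Pure Greedy Algorithm. -/
def errors (H : Type*) [NormedAddCommGroup H] [InnerProductSpace ℝ H] (C₁ C₂ : ℝ) (m : ℕ) :
    Set ℝ :=
  {t | ∃ B ∈ RB H C₁ C₂, ∃ f ∈ A1 B, ∃ F : ℕ → H, IsPGA B f F ∧ t = ‖F m‖}

/-- `γ(m, RB(C₁, C₂))`, the supremum of the errors. -/
noncomputable def γ (H : Type*) [NormedAddCommGroup H] [InnerProductSpace ℝ H] (C₁ C₂ : ℝ)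
    (m : ℕ) : ℝ := sSup (errors H C₁ C₂ m)

/-- The exponent `r` is admissible for all Riesz bases with `C₁ ≥ a`, with one constant for all of
them: `γ(m, RB(C₁, C₂)) ≤ C m^{-r}` for all `m ≥ 1`. -/
def RateFrom (a r : ℝ) : Prop :=
  ∃ C : ℝ, 0 < C ∧ ∀ C₁ C₂ : ℝ, a ≤ C₁ → C₁ ≤ 1 → 1 ≤ C₂ →
    ∀ (H : Type) [NormedAddCommGroup H] [InnerProductSpace ℝ H] [CompleteSpace H]
      [TopologicalSpace.SeparableSpace H], ¬ FiniteDimensional ℝ H → ∀ m : ℕ, 1 ≤ m →
      BddAbove (errors H C₁ C₂ m) ∧ γ H C₁ C₂ m ≤ C * (m : ℝ) ^ (-r)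

/-- `λ(β, V)` -/
noncomputable def lam (β V : ℝ) : ℝ :=
  β * ((1 - β) - β / (2 * V) + V ^ (-β) / (1 + β)) / ((1 - β) + β / (2 * V) - V ^ (-β) / (1 + β))

/-- `ζ(β) = (1 - β²)^{-1/β} / (1 + β)` -/
noncomputable def zeta (β : ℝ) : ℝ := (1 - β ^ 2) ^ (-(1 / β)) / (1 + β)

/-- `T(β, V) = ((λ + β) / (2 V)) / (ζ λ - 1 + β)` -/
noncomputable def T (β V : ℝ) : ℝ := ((lam β V + β) / (2 * V)) / (zeta β * lam β V - 1 + β)

section proof

open Pool.Agent.Lib.MP_3cbb73_an Real Filter Topology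

variable {H : Type*} [NormedAddCommGroup H] [InnerProductSpace ℝ H]

private lemma riesz_of_mem {C₁ C₂ t : ℝ} {B : Set H} (h0 : 0 ≤ C₁) (h1 : t ≤ C₁ ^ 2)
    (hB : B ∈ RB H C₁ C₂) : Riesz (fun i : B => (i : H)) t (C₂ ^ 2) := by
  classical
  obtain ⟨⟨hn, -⟩, hR⟩ := hB
  have key : ∀ (s : Finset B) (c : B → ℝ), ∃ (s' : Finset H) (c' : H → ℝ), (↑s' : Set H) ⊆ B ∧
      ∑ g ∈ s', c' g • g = ∑ i ∈ s, c i • (i : H) ∧ ∑ g ∈ s', c' g ^ 2 = ∑ i ∈ s, c i ^ 2 := by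
    intro s c
    refine ⟨s.map (Function.Embedding.subtype _), fun h => if hh : h ∈ B then c ⟨h, hh⟩ else 0,
      ?_, ?_, ?_⟩
    · intro h hh
      simp only [Finset.coe_map, Set.mem_image, Function.Embedding.subtype_apply] at hh
      obtain ⟨y, _, rfl⟩ := hh
      exact y.2
    · rw [Finset.sum_map]
      apply Finset.sum_congr rfl
      intro i _
      simp
    · rw [Finset.sum_map]
      apply Finset.sum_congr rfl
      intro i _
      simp
  refine ⟨fun i => hn i i.2, fun s c => ?_, fun s c => ?_⟩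
  · obtain ⟨s', c', hs', e1, e2⟩ := key s c
    have h := (hR s' c' hs').1
    rw [e1, e2] at h
    have hS : 0 ≤ ∑ i ∈ s, c i ^ 2 := Finset.sum_nonneg (fun i _ => sq_nonneg _)
    have h3 : (C₁ * √(∑ i ∈ s, c i ^ 2)) ^ 2 ≤ ‖∑ i ∈ s, c i • (i : H)‖ ^ 2 :=
      pow_le_pow_left₀ (by positivity) h 2
    rw [mul_pow, Real.sq_sqrt hS] at h3
    exact le_trans (mul_le_mul_of_nonneg_right h1 hS) h3
  · obtain ⟨s', c', hs', e1, e2⟩ := key s c
    have h := (hR s' c' hs').2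
    rw [e1, e2] at h
    have hS : 0 ≤ ∑ i ∈ s, c i ^ 2 := Finset.sum_nonneg (fun i _ => sq_nonneg _)
    have h3 := pow_le_pow_left₀ (norm_nonneg _) h 2
    rwa [mul_pow, Real.sq_sqrt hS] at h3

private lemma mem_closure_index {B : Set H} {f : H} (hf : f ∈ A1 B) :
    f ∈ closure {f | ∃ (s : Finset B) (c : B → ℝ), ∑ i ∈ s, |c i| ≤ 1 ∧
      ∑ i ∈ s, c i • (i : H) = f} := by
  classical
  refine closure_mono ?_ hf
  rintro f ⟨s, c, hs, h1, h2⟩
  refine ⟨s.subtype (· ∈ B), fun i => c i, ?_, ?_⟩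
  · rw [Finset.sum_subtype_of_mem (fun g : H => |c g|) (fun x hx => hs hx)]
    exact h1
  · rw [Finset.sum_subtype_of_mem (fun g : H => c g • g) (fun x hx => hs hx)]
    exact h2

private lemma zeta_lower {β : ℝ} (hβ : 0 < β) (hβ1 : β < 1) : 1 ≤ zeta β := by
  have h1 : 0 < 1 - β ^ 2 := by nlinarith
  unfold zeta
  rw [one_le_div (by positivity), Real.rpow_neg h1.le, ← Real.inv_rpow h1.le]
  have h2 : 1 + β ^ 2 ≤ (1 - β ^ 2)⁻¹ := by
    rw [le_inv_comm₀ (by positivity) h1, ← one_div, le_div_iff₀ (by positivity)]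
    nlinarith [sq_nonneg (β ^ 2)]
  have h3 := one_add_mul_self_le_rpow_one_add (s := β ^ 2) (by nlinarith [sq_nonneg β])
    (p := 1 / β) (by rw [one_le_div hβ]; exact hβ1.le)
  have h4 : 1 + 1 / β * β ^ 2 = 1 + β := by field_simp
  rw [h4] at h3
  exact h3.trans (Real.rpow_le_rpow (by positivity) h2 (by positivity))

private lemma zeta_upper {β : ℝ} (hβ : 0 < β) (hβ1 : β < 1) : zeta β * (1 - β ^ 2) ≤ 1 := by
  have h1 : 0 < 1 - β ^ 2 := by nlinarith
  have h3 := one_add_mul_self_le_rpow_one_add (s := -β ^ 2) (by nlinarith [sq_nonneg β])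
    (p := 1 / β) (by rw [one_le_div hβ]; exact hβ1.le)
  have h4 : 1 + 1 / β * -β ^ 2 = 1 - β := by
    field_simp
    ring
  have h5 : 1 + -β ^ 2 = 1 - β ^ 2 := by ring
  rw [h4, h5] at h3
  have h6 : 0 < (1 - β ^ 2) ^ (1 / β) := Real.rpow_pos_of_pos h1 _
  unfold zeta
  rw [Real.rpow_neg h1.le]
  have h7 : ((1 - β ^ 2) ^ (1 / β))⁻¹ / (1 + β) * (1 - β ^ 2) =
      (1 - β) / (1 - β ^ 2) ^ (1 / β) := by
    rw [show 1 - β ^ 2 = (1 - β) * (1 + β) by ring] at h6 ⊢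
    field_simp
  rw [h7, div_le_one h6]
  exact h3

private lemma num_pos {β V : ℝ} (hβ : 0 < β) (hβ2 : β ≤ 1 / 2) (hV : 1 ≤ V) :
    0 < β * ((1 - β) - β / (2 * V) + V ^ (-β) / (1 + β)) := by
  have hV0 : 0 < V := by linarith
  have hs0 : 0 < V ^ (-β) := Real.rpow_pos_of_pos hV0 _
  have h3 : β / (2 * V) ≤ β / 2 := by
    apply div_le_div_of_nonneg_left hβ.le (by norm_num)
    linarith
  have h4 : 0 < V ^ (-β) / (1 + β) := by positivity
  apply mul_pos hβ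
  linarith

private lemma den_pos {β V : ℝ} (hβ : 0 < β) (hβ2 : β ≤ 1 / 2) (hV : 1 ≤ V)
    (h1 : 0 < lam β V) : 0 < (1 - β) + β / (2 * V) - V ^ (-β) / (1 + β) := by
  by_contra hcon
  have h5 : lam β V ≤ 0 := by
    unfold lam
    exact div_nonpos_of_nonneg_of_nonpos (num_pos hβ hβ2 hV).le (not_lt.1 hcon)
  linarith

private lemma lam_ge {β V : ℝ} (hβ : 0 < β) (hβ2 : β ≤ 1 / 2) (hV : 1 ≤ V)
    (h1 : 0 < lam β V) : β ≤ lam β V := by
  have hd := den_pos hβ hβ2 hV h1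
  have hV0 : 0 < V := by linarith
  unfold lam
  rw [le_div_iff₀ hd]
  apply mul_le_mul_of_nonneg_left _ hβ.le
  have h2 : 1 / V ≤ V ^ (-β) := by
    rw [one_div, ← Real.rpow_neg_one]
    exact Real.rpow_le_rpow_of_exponent_le hV (by linarith)
  have h3 : β / V ≤ 2 * (V ^ (-β) / (1 + β)) := by
    have h4 : V ^ (-β) ≤ 2 * (V ^ (-β) / (1 + β)) := by
      rw [← mul_div_assoc, le_div_iff₀ (by linarith)]
      have : 0 < V ^ (-β) := Real.rpow_pos_of_pos hV0 _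
      nlinarith
    have h5 : β / V ≤ 1 / V := div_le_div_of_nonneg_right (by linarith) hV0.le
    linarith
  have h6 : β / V = 2 * (β / (2 * V)) := by field_simp
  linarith

/-- The parameters of the profile. -/
private noncomputable def par (β V : ℝ) (hβ : 0 < β) (hβ2 : β ≤ 1 / 2) (hV : 1 ≤ V)
    (h1 : 0 < lam β V) : Upper.Par where
  β := β
  V := V
  lam := lam β V
  mu := (lam β V + β) / (2 * V)
  hβ := hβ
  hβ1 := by linarith
  hV := hV
  hmu := by
    have : 0 < lam β V + β := by linarith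
    positivity
  hlm := by field_simp
  hone := by
    have hV0 : 0 < V := by linarith
    have hs : V ^ (1 - β) = V * V ^ (-β) := by
      rw [show (1 : ℝ) - β = 1 + -β by ring, Real.rpow_add hV0, Real.rpow_one]
    have h1β : 0 < 1 - β := by linarith
    have hden := den_pos hβ hβ2 hV h1
    have hlam : lam β V * ((1 - β) + β / (2 * V) - V ^ (-β) / (1 + β)) =
        β * ((1 - β) - β / (2 * V) + V ^ (-β) / (1 + β)) := by
      unfold lam
      rw [div_mul_cancel₀ _ hden.ne']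
    apply le_of_eq
    rw [hs]
    generalize lam β V = L at hlam
    generalize V ^ (-β) = s at hlam
    have h2 : (1 - β ^ 2) = (1 - β) * (1 + β) := by ring
    rw [h2]
    field_simp at hlam ⊢
    linear_combination hlam

private lemma general (β V : ℝ) (hβ : 0 < β) (hβ2 : β ≤ 1 / 2) (hV : 1 ≤ V)
    (h1 : 1 - β < zeta β * lam β V) (h2 : zeta β * lam β V < 2) {a : ℝ} (ha : 0 ≤ a)
    (haT : T β V < a ^ 2) : RateFrom a ((1 - β) / (2 * (1 + β))) := by
  have hβ1 : β < 1 := by linarith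
  have hζ1 := zeta_lower hβ hβ1
  have hζ2 := zeta_upper hβ hβ1
  have hlam0 : 0 < lam β V := by
    by_contra hcon
    have : zeta β * lam β V ≤ 0 :=
      mul_nonpos_of_nonneg_of_nonpos (by linarith) (not_lt.1 hcon)
    linarith
  have hlamβ := lam_ge hβ hβ2 hV hlam0
  have h1β2 : 0 < 1 - β ^ 2 := by nlinarith
  have hlam3 : (1 - β) * (1 - β ^ 2) < lam β V := by
    have h3 : (1 - β) * (1 - β ^ 2) < zeta β * lam β V * (1 - β ^ 2) :=
      mul_lt_mul_of_pos_right h1 h1β2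
    have h4 : zeta β * lam β V * (1 - β ^ 2) = (zeta β * (1 - β ^ 2)) * lam β V := by ring
    nlinarith
  have hlam2 : 1 ≤ lam β V * (2 + β) := by
    rcases le_total β (41422 / 100000) with h | h
    · have h3 : (1 - β) * (1 - β ^ 2) * (2 + β) ≤ lam β V * (2 + β) :=
        mul_le_mul_of_nonneg_right hlam3.le (by linarith)
      refine le_trans ?_ h3
      -- `(1-β)²(1+β)(2+β) ≥ 1`
      have h4 : (1 - 41422 / 100000) ^ 2 ≤ (1 - β) ^ 2 :=
        pow_le_pow_left₀ (by norm_num) (by linarith) 2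
      have h5 : (1 - β) * (1 - β ^ 2) * (2 + β) = (1 - β) ^ 2 * ((1 + β) * (2 + β)) := by ring
      have h6 : 2 + 3 * β ≤ (1 + β) * (2 + β) := by nlinarith [sq_nonneg β]
      rw [h5]
      have h7 : (1 - β) ^ 2 * (2 + 3 * β) ≤ (1 - β) ^ 2 * ((1 + β) * (2 + β)) :=
        mul_le_mul_of_nonneg_left h6 (sq_nonneg _)
      refine le_trans ?_ h7
      nlinarith [mul_nonneg hβ.le (sub_nonneg.2 h), mul_nonneg (mul_nonneg hβ.le hβ.le)
        (sub_nonneg.2 h)]
    · nlinarith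
  set P := par β V hβ hβ2 hV hlam0 with hP
  have hPT : P.mu / (zeta β * P.lam - 1 + P.β) = T β V := rfl
  obtain ⟨c, hc0, hcT, hw⟩ := P.coercive2 hζ1 hζ2 h1 h2 hβ2 hlam2
  rw [hPT] at hcT
  have hT0 : 0 < T β V := lt_of_le_of_lt hc0 hcT
  have ha2 : 0 < a ^ 2 := hT0.trans haT
  have hca : c < a ^ 2 := hcT.trans haT
  have hA : 0 < P.A := div_pos hlam0 hβ
  have hd : 0 < zeta β * lam β V - 1 + β := by linarith
  obtain ⟨q, K, hq, hq1, hcond⟩ := Upper.exists_ratio (β := β) (κ := 1 + P.B / a ^ 2)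
    (A := P.A) hβ hβ1 (by
      have e1 : P.A * β * ((1 - β ^ 2) ^ (-(1 / β)) / (1 + β)) = zeta β * lam β V := by
        show lam β V / β * β * zeta β = _
        field_simp
      rw [e1]
      have e2 : (1 + P.B / a ^ 2) * (1 - β) =
          (1 - β) + ((lam β V + β) / (2 * V)) / a ^ 2 := by
        show (1 + ((lam β V + β) / (2 * V)) / (1 - β) / a ^ 2) * (1 - β) = _
        have : 1 - β ≠ 0 := by linarith
        field_simp
      rw [e2]
      have e3 : ((lam β V + β) / (2 * V)) / a ^ 2 < zeta β * lam β V - 1 + β := by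
        rw [div_lt_iff₀ ha2]
        unfold T at haT
        rw [div_lt_iff₀ hd] at haT
        linarith
      linarith)
  have hM : 0 < Upper.Mc P q K / (1 - c / a ^ 2) / q := by
    have h5 : 0 < 1 - c / a ^ 2 := by
      rw [sub_pos, div_lt_one ha2]
      exact hca
    have hQ1 : q ^ P.β < 1 := Real.rpow_lt_one hq.le hq1 hβ
    have hQ0 : 0 < q ^ P.β := Real.rpow_pos_of_pos hq _
    have h6 : 0 < Upper.Mc P q K := by
      unfold Upper.Mc
      have h7 : 0 ≤ 1 - q ^ P.β := by linarith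
      have h8 := abs_nonneg P.A
      have h9 : 0 ≤ P.A * (1 - q ^ P.β) * (q⁻¹) ^ (K + 1) * ((q ^ P.β)⁻¹) ^ (K + 1) *
        ((K + 1) * (q⁻¹) ^ K) := by positivity
      linarith
    positivity
  refine ⟨Upper.Mc P q K / (1 - c / a ^ 2) / q, hM, ?_⟩
  intro C₁ C₂ hC₁ _ hC₂ H _ _ _ _ _ m hm
  have hm0 : (0 : ℝ) < m := by exact_mod_cast hm
  have hub : ∀ t ∈ errors H C₁ C₂ m,
      t ≤ Upper.Mc P q K / (1 - c / a ^ 2) / q * (m : ℝ) ^ (-((1 - β) / (2 * (1 + β)))) := by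
    rintro t ⟨B, hB, f, hf, F, hF, rfl⟩
    have hTC : a ^ 2 ≤ C₁ ^ 2 := pow_le_pow_left₀ ha hC₁ 2
    have hR := riesz_of_mem (ha.trans hC₁) hTC hB
    have hq2 : 0 < C₂ ^ 2 := by positivity
    obtain ⟨x, hx1, hx2, hx3⟩ := exists_coeff hR ha2 hq2 (mem_closure_index hf)
    obtain ⟨hF0, hF1⟩ := hF
    choose φ hφB hmax hstep using hF1
    have hrun : Upper.IsRun (fun i : B => (i : H)) F (fun k => (⟨φ k, hφB k⟩ : B)) :=
      ⟨hR.norm_one, fun k => hstep k, fun k i => hmax k i i.2⟩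
    have hr := Upper.rate' hR ha2 P hA.le hc0 hca hw hq hq1 hcond hrun hx1 hx2
      (by rw [hF0]; exact hx3) m
    refine hr.trans ?_
    apply mul_le_mul_of_nonneg_left _ hM.le
    apply Real.rpow_le_rpow_of_nonpos hm0 (by linarith)
    have : 0 ≤ (1 - β) / (2 * (1 + β)) := by
      apply div_nonneg <;> linarith
    show -((1 - β) / (2 * (1 + β))) ≤ 0
    linarith
  refine ⟨⟨_, hub⟩, ?_⟩
  rcases (errors H C₁ C₂ m).eq_empty_or_nonempty with he | he
  · unfold γ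
    rw [he, Real.sSup_empty]
    positivity
  · exact csSup_le he hub

/-- The general statement with a lower bound for `ζ`. -/
private lemma general' (β V z : ℝ) (hβ : 0 < β) (hβ2 : β ≤ 1 / 2) (hV : 1 ≤ V)
    (hz : z ≤ zeta β) {a : ℝ} (ha : 0 ≤ a) (hlam : 0 < lam β V)
    (h1 : (lam β V + β) / (2 * V) < a ^ 2 * (z * lam β V - 1 + β))
    (h2 : lam β V < 2 * (1 - β ^ 2)) : RateFrom a ((1 - β) / (2 * (1 + β))) := by
  have hβ1 : β < 1 := by linarith
  have h1β2 : 0 < 1 - β ^ 2 := by nlinarith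
  have hζ2 := zeta_upper hβ hβ1
  have hmu : 0 < (lam β V + β) / (2 * V) := by
    have : 0 < lam β V + β := by linarith
    positivity
  have h3 : z * lam β V ≤ zeta β * lam β V := mul_le_mul_of_nonneg_right hz hlam.le
  have ha2 : 0 ≤ a ^ 2 := sq_nonneg a
  have h4 : 0 < z * lam β V - 1 + β := by
    by_contra hcon
    have : a ^ 2 * (z * lam β V - 1 + β) ≤ 0 :=
      mul_nonpos_of_nonneg_of_nonpos ha2 (not_lt.1 hcon)
    linarith
  refine general β V hβ hβ2 hV (by linarith) ?_ ha ?_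
  · have h5 : zeta β * lam β V * (1 - β ^ 2) < 2 * (1 - β ^ 2) := by
      have h6 : zeta β * lam β V * (1 - β ^ 2) = (zeta β * (1 - β ^ 2)) * lam β V := by ring
      rw [h6]
      nlinarith
    exact lt_of_mul_lt_mul_right h5 h1β2.le
  · unfold T
    rw [div_lt_iff₀ (by linarith)]
    refine lt_of_lt_of_le h1 ?_
    apply mul_le_mul_of_nonneg_left _ ha2
    linarith

private lemma pow_inv {u : ℝ} (hu : 0 < u) {β : ℝ} {k : ℕ} {j : ℕ} (h : β * k = j) :
    (u ^ k) ^ (-β) = (u ^ j)⁻¹ := by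
  rw [← Real.rpow_natCast u k, ← Real.rpow_mul hu.le, ← Real.rpow_natCast u j,
    ← Real.rpow_neg hu.le]
  congr 1
  linarith

private lemma zeta_inv (k : ℕ) (hk : 2 ≤ k) :
    ((1 - (1 / (k : ℝ)) ^ 2) ^ k)⁻¹ / (1 + 1 / (k : ℝ)) ≤ zeta (1 / (k : ℝ)) := by
  have hk0 : (2 : ℝ) ≤ k := by exact_mod_cast hk
  have h1 : 0 < 1 - (1 / (k : ℝ)) ^ 2 := by
    have : (1 / (k : ℝ)) ^ 2 ≤ (1 / 2) ^ 2 := by
      apply pow_le_pow_left₀ (by positivity)
      exact div_le_div_of_nonneg_left (by norm_num) (by norm_num) hk0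
    linarith
  unfold zeta
  apply le_of_eq
  congr 1
  rw [Real.rpow_neg h1.le, ← Real.rpow_natCast (1 - (1 / (k : ℝ)) ^ 2) k]
  congr 2
  field_simp

private lemma tab1 : RateFrom 0.642 (9 / 20) := by
  have hl : lam (1 / 19) ((17 / 16) ^ 19) = (1 / 19) * ((1 - 1 / 19) -
      (1 / 19) / (2 * (17 / 16) ^ 19) + ((17 / 16) ^ 1)⁻¹ / (1 + 1 / 19)) / ((1 - 1 / 19) +
      (1 / 19) / (2 * (17 / 16) ^ 19) - ((17 / 16) ^ 1)⁻¹ / (1 + 1 / 19)) := by
    unfold lam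
    rw [pow_inv (u := 17 / 16) (by norm_num) (j := 1) (by norm_num)]
  have hz : (((1 - (1 / 19) ^ 2) ^ 19)⁻¹ / (1 + 1 / 19)) ≤ zeta (1 / 19) := by
    have := zeta_inv 19 (by norm_num)
    push_cast at this
    exact this
  have h := general' (1 / 19) ((17 / 16) ^ 19) (((1 - (1 / 19) ^ 2) ^ 19)⁻¹ / (1 + 1 / 19)) (by norm_num) (by norm_num) (by norm_num)
    hz (a := 0.642) (by norm_num) (by rw [hl]; norm_num) (by rw [hl]; norm_num)
    (by rw [hl]; norm_num)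
  have e : ((1 : ℝ) - 1 / 19) / (2 * (1 + 1 / 19)) = 9 / 20 := by norm_num
  rwa [e] at h

private lemma tab2 : RateFrom 0.605 (2 / 5) := by
  have hl : lam (1 / 9) ((15 / 13) ^ 9) = (1 / 9) * ((1 - 1 / 9) -
      (1 / 9) / (2 * (15 / 13) ^ 9) + ((15 / 13) ^ 1)⁻¹ / (1 + 1 / 9)) / ((1 - 1 / 9) +
      (1 / 9) / (2 * (15 / 13) ^ 9) - ((15 / 13) ^ 1)⁻¹ / (1 + 1 / 9)) := by
    unfold lam
    rw [pow_inv (u := 15 / 13) (by norm_num) (j := 1) (by norm_num)]
  have hz : (((1 - (1 / 9) ^ 2) ^ 9)⁻¹ / (1 + 1 / 9)) ≤ zeta (1 / 9) := by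
    have := zeta_inv 9 (by norm_num)
    push_cast at this
    exact this
  have h := general' (1 / 9) ((15 / 13) ^ 9) (((1 - (1 / 9) ^ 2) ^ 9)⁻¹ / (1 + 1 / 9)) (by norm_num) (by norm_num) (by norm_num)
    hz (a := 0.605) (by norm_num) (by rw [hl]; norm_num) (by rw [hl]; norm_num)
    (by rw [hl]; norm_num)
  have e : ((1 : ℝ) - 1 / 9) / (2 * (1 + 1 / 9)) = 2 / 5 := by norm_num
  rwa [e] at h

private lemma tab3 : RateFrom 0.539 (1 / 3) := by
  have hl : lam (1 / 5) ((7 / 5) ^ 5) = (1 / 5) * ((1 - 1 / 5) -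
      (1 / 5) / (2 * (7 / 5) ^ 5) + ((7 / 5) ^ 1)⁻¹ / (1 + 1 / 5)) / ((1 - 1 / 5) +
      (1 / 5) / (2 * (7 / 5) ^ 5) - ((7 / 5) ^ 1)⁻¹ / (1 + 1 / 5)) := by
    unfold lam
    rw [pow_inv (u := 7 / 5) (by norm_num) (j := 1) (by norm_num)]
  have hz : (((1 - (1 / 5) ^ 2) ^ 5)⁻¹ / (1 + 1 / 5)) ≤ zeta (1 / 5) := by
    have := zeta_inv 5 (by norm_num)
    push_cast at this
    exact this
  have h := general' (1 / 5) ((7 / 5) ^ 5) (((1 - (1 / 5) ^ 2) ^ 5)⁻¹ / (1 + 1 / 5)) (by norm_num) (by norm_num) (by norm_num)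
    hz (a := 0.539) (by norm_num) (by rw [hl]; norm_num) (by rw [hl]; norm_num)
    (by rw [hl]; norm_num)
  have e : ((1 : ℝ) - 1 / 5) / (2 * (1 + 1 / 5)) = 1 / 3 := by norm_num
  rwa [e] at h

private lemma tab4 : RateFrom 0.494 (3 / 10) := by
  have hl : lam (1 / 4) ((5 / 3) ^ 4) = (1 / 4) * ((1 - 1 / 4) -
      (1 / 4) / (2 * (5 / 3) ^ 4) + ((5 / 3) ^ 1)⁻¹ / (1 + 1 / 4)) / ((1 - 1 / 4) +
      (1 / 4) / (2 * (5 / 3) ^ 4) - ((5 / 3) ^ 1)⁻¹ / (1 + 1 / 4)) := by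
    unfold lam
    rw [pow_inv (u := 5 / 3) (by norm_num) (j := 1) (by norm_num)]
  have hz : (((1 - (1 / 4) ^ 2) ^ 4)⁻¹ / (1 + 1 / 4)) ≤ zeta (1 / 4) := by
    have := zeta_inv 4 (by norm_num)
    push_cast at this
    exact this
  have h := general' (1 / 4) ((5 / 3) ^ 4) (((1 - (1 / 4) ^ 2) ^ 4)⁻¹ / (1 + 1 / 4)) (by norm_num) (by norm_num) (by norm_num)
    hz (a := 0.494) (by norm_num) (by rw [hl]; norm_num) (by rw [hl]; norm_num)
    (by rw [hl]; norm_num)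
  have e : ((1 : ℝ) - 1 / 4) / (2 * (1 + 1 / 4)) = 3 / 10 := by norm_num
  rwa [e] at h

private lemma tab5 : RateFrom 0.401 (1 / 4) := by
  have hl : lam (1 / 3) ((5 / 2) ^ 3) = (1 / 3) * ((1 - 1 / 3) -
      (1 / 3) / (2 * (5 / 2) ^ 3) + ((5 / 2) ^ 1)⁻¹ / (1 + 1 / 3)) / ((1 - 1 / 3) +
      (1 / 3) / (2 * (5 / 2) ^ 3) - ((5 / 2) ^ 1)⁻¹ / (1 + 1 / 3)) := by
    unfold lam
    rw [pow_inv (u := 5 / 2) (by norm_num) (j := 1) (by norm_num)]
  have hz : (((1 - (1 / 3) ^ 2) ^ 3)⁻¹ / (1 + 1 / 3)) ≤ zeta (1 / 3) := by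
    have := zeta_inv 3 (by norm_num)
    push_cast at this
    exact this
  have h := general' (1 / 3) ((5 / 2) ^ 3) (((1 - (1 / 3) ^ 2) ^ 3)⁻¹ / (1 + 1 / 3)) (by norm_num) (by norm_num) (by norm_num)
    hz (a := 0.401) (by norm_num) (by rw [hl]; norm_num) (by rw [hl]; norm_num)
    (by rw [hl]; norm_num)
  have e : ((1 : ℝ) - 1 / 3) / (2 * (1 + 1 / 3)) = 1 / 4 := by norm_num
  rwa [e] at h

private lemma tab6 : RateFrom 0.222 (1 / 5) := by
  have hl : lam (3 / 7) ((2) ^ 7) = (3 / 7) * ((1 - 3 / 7) -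
      (3 / 7) / (2 * (2) ^ 7) + ((2) ^ 3)⁻¹ / (1 + 3 / 7)) / ((1 - 3 / 7) +
      (3 / 7) / (2 * (2) ^ 7) - ((2) ^ 3)⁻¹ / (1 + 3 / 7)) := by
    unfold lam
    rw [pow_inv (u := 2) (by norm_num) (j := 3) (by norm_num)]
  have hz : 1.1235 ≤ zeta (3 / 7) := by
    have h1 : (0 : ℝ) < 1 - (3 / 7) ^ 2 := by norm_num
    unfold zeta
    rw [Real.rpow_neg h1.le, le_div_iff₀ (by norm_num), ← Real.inv_rpow h1.le]
    have h2 : (1.605 : ℝ) ^ (3 : ℝ) ≤ (((1 - (3 / 7) ^ 2 : ℝ))⁻¹) ^ (7 : ℝ) := by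
      rw [show (3 : ℝ) = ((3 : ℕ) : ℝ) by norm_num, show (7 : ℝ) = ((7 : ℕ) : ℝ) by norm_num,
        Real.rpow_natCast, Real.rpow_natCast]
      norm_num
    have h3 := Real.rpow_le_rpow (by positivity) h2 (by norm_num : (0 : ℝ) ≤ 1 / 3)
    rw [← Real.rpow_mul (by norm_num), ← Real.rpow_mul (by positivity)] at h3
    norm_num at h3 ⊢
    linarith
  have h := general' (3 / 7) ((2) ^ 7) 1.1235 (by norm_num) (by norm_num) (by norm_num)
    hz (a := 0.222) (by norm_num) (by rw [hl]; norm_num) (by rw [hl]; norm_num)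
    (by rw [hl]; norm_num)
  have e : ((1 : ℝ) - 3 / 7) / (2 * (1 + 3 / 7)) = 1 / 5 := by norm_num
  rwa [e] at h

/-- For large `V` the threshold is below any positive number at the critical `β`. -/
private lemma large_V {β : ℝ} (hβ : 0 < β) (hβ2 : β < 1 / 2) (hcrit : zeta β * β = 1 - β)
    {a : ℝ} (ha : 0 < a) : ∃ V : ℝ, 1 ≤ V ∧ 0 < lam β V ∧ lam β V < 2 * (1 - β ^ 2) ∧
      (lam β V + β) / (2 * V) < a ^ 2 * (zeta β * lam β V - 1 + β) := by
  have hβ1 : 0 < 1 - β := by linarith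
  have hζ1 := zeta_lower hβ (by linarith)
  have t1 : Tendsto (fun V : ℝ => V ^ (-β)) atTop (𝓝 0) := tendsto_rpow_neg_atTop hβ
  have t2 : Tendsto (fun V : ℝ => β / (2 * V)) atTop (𝓝 0) :=
    tendsto_const_nhds.div_atTop (tendsto_id.const_mul_atTop (by norm_num))
  have t3 : Tendsto (fun V : ℝ => V ^ (1 - β)) atTop atTop := tendsto_rpow_atTop hβ1
  have t4 : Tendsto (fun V : ℝ => lam β V) atTop (𝓝 β) := by
    have h1 : Tendsto (fun V : ℝ => β * ((1 - β) - β / (2 * V) + V ^ (-β) / (1 + β))) atTop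
        (𝓝 (β * ((1 - β) - 0 + 0 / (1 + β)))) :=
      ((tendsto_const_nhds.sub t2).add (t1.div_const _)).const_mul β
    have h2 : Tendsto (fun V : ℝ => (1 - β) + β / (2 * V) - V ^ (-β) / (1 + β)) atTop
        (𝓝 ((1 - β) + 0 - 0 / (1 + β))) :=
      (tendsto_const_nhds.add t2).sub (t1.div_const _)
    have h3 := h1.div h2 (by simp only [zero_div, add_zero, sub_zero]; exact hβ1.ne')
    have e : β * ((1 - β) - 0 + 0 / (1 + β)) / ((1 - β) + 0 - 0 / (1 + β)) = β := by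
      simp only [zero_div, add_zero, sub_zero]
      field_simp
    rw [e] at h3
    exact h3
  have h1β2 : β < 2 * (1 - β ^ 2) := by nlinarith
  have e1 := t4.eventually (eventually_lt_nhds h1β2)
  have e2 := t4.eventually (eventually_gt_nhds hβ)
  have e3 := t4.eventually (eventually_lt_nhds (show β < 2 * β by linarith))
  have e4 := t3.eventually (eventually_gt_atTop ((3 / (2 * a ^ 2) + β) * 2))
  have e5 : ∀ᶠ V : ℝ in atTop, 1 ≤ V := eventually_ge_atTop 1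
  obtain ⟨V, h1, h2, h3, h4, h5⟩ := (e1.and (e2.and (e3.and (e4.and e5)))).exists
  refine ⟨V, h5, h2, h1, ?_⟩
  have hV0 : 0 < V := by linarith
  have hden := den_pos hβ hβ2.le h5 h2
  have hs0 : 0 < V ^ (-β) := Real.rpow_pos_of_pos hV0 _
  have hs : V * V ^ (-β) = V ^ (1 - β) := by
    rw [show (1 : ℝ) - β = 1 + -β by ring, Real.rpow_add hV0, Real.rpow_one]
  -- `lam - β` is at least `β (s - β / V)`
  have hden1 : (1 - β) + β / (2 * V) - V ^ (-β) / (1 + β) ≤ 1 := by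
    have h6 : β / (2 * V) ≤ β := by
      rw [div_le_iff₀ (by positivity)]
      nlinarith
    have h7 : 0 < V ^ (-β) / (1 + β) := by positivity
    linarith
  have hnum : V ^ (-β) - β / V ≤ 2 * (V ^ (-β) / (1 + β)) - β / V := by
    have h4 : V ^ (-β) ≤ 2 * (V ^ (-β) / (1 + β)) := by
      rw [← mul_div_assoc, le_div_iff₀ (by linarith)]
      nlinarith
    linarith
  have hpos : 0 < V ^ (-β) - β / V := by
    have h6 : V ^ (-β) - β / V = (V * V ^ (-β) - β) / V := by field_simp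
    rw [h6, hs]
    apply div_pos _ hV0
    have : 0 < 3 / (2 * a ^ 2) := by positivity
    linarith
  have hdiff : β * (V ^ (-β) - β / V) ≤ lam β V - β := by
    have h6 : lam β V - β = β * (2 * (V ^ (-β) / (1 + β)) - β / V) /
        ((1 - β) + β / (2 * V) - V ^ (-β) / (1 + β)) := by
      unfold lam
      rw [eq_div_iff hden.ne', sub_mul, div_mul_cancel₀ _ hden.ne']
      have : β / V = 2 * (β / (2 * V)) := by field_simp
      rw [this]
      ring
    rw [h6, le_div_iff₀ hden]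
    calc β * (V ^ (-β) - β / V) * ((1 - β) + β / (2 * V) - V ^ (-β) / (1 + β))
        ≤ β * (V ^ (-β) - β / V) * 1 :=
          mul_le_mul_of_nonneg_left hden1 (by positivity)
      _ ≤ β * (2 * (V ^ (-β) / (1 + β)) - β / V) := by
          rw [mul_one]
          exact mul_le_mul_of_nonneg_left hnum hβ.le
  have hmu : (lam β V + β) / (2 * V) < 3 * β / (2 * V) := by
    apply div_lt_div_of_pos_right _ (by positivity)
    linarith
  have e6 : zeta β * lam β V - 1 + β = zeta β * (lam β V - β) := by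
    rw [mul_sub, hcrit]
    ring
  rw [e6]
  have h7 : a ^ 2 * (β * (V ^ (-β) - β / V)) ≤ a ^ 2 * (zeta β * (lam β V - β)) := by
    apply mul_le_mul_of_nonneg_left _ (sq_nonneg a)
    have : lam β V - β ≤ zeta β * (lam β V - β) := by
      have h8 : 0 ≤ lam β V - β := le_trans (by positivity) hdiff
      nlinarith
    linarith
  refine hmu.le.trans_lt (lt_of_lt_of_le ?_ h7)
  have h8 : a ^ 2 * (β * (V ^ (-β) - β / V)) = (a ^ 2 * β * (V ^ (1 - β) - β)) / V := by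
    rw [← hs]
    field_simp
  rw [h8, div_lt_div_iff₀ (by positivity) hV0]
  have h9 : 3 / (2 * a ^ 2) < V ^ (1 - β) - β := by
    have : 0 < 3 / (2 * a ^ 2) := by positivity
    linarith
  have h10 : 3 / 2 < a ^ 2 * (V ^ (1 - β) - β) := by
    rw [div_lt_iff₀ (by positivity)] at h9
    linarith
  have h11 : 0 < β * V := by positivity
  nlinarith

private lemma continuousAt_zeta {β : ℝ} (hβ : 0 < β) (hβ1 : β < 1) : ContinuousAt zeta β := by
  have h1 : (1 : ℝ) - β ^ 2 ≠ 0 := by nlinarith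
  have h2 : ContinuousAt (fun x : ℝ => (1 : ℝ) - x ^ 2) β := by fun_prop
  have h3 : ContinuousAt (fun x : ℝ => -(1 / x)) β :=
    (continuousAt_const.div continuousAt_id hβ.ne').neg
  have h4 : ContinuousAt (fun x : ℝ => (1 - x ^ 2) ^ (-(1 / x))) β :=
    h2.rpow h3 (Or.inl h1)
  exact h4.div (by fun_prop) (by linarith)

private lemma continuousAt_lam {β V : ℝ} (hβ : 0 < β) (hV : 1 ≤ V)
    (hden : 0 < (1 - β) + β / (2 * V) - V ^ (-β) / (1 + β)) :
    ContinuousAt (fun x => lam x V) β := by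
  have hV0 : 0 < V := by linarith
  have h1 : ContinuousAt (fun x : ℝ => V ^ (-x)) β := by
    have h2 : ContinuousAt (fun x : ℝ => -x) β := by fun_prop
    exact continuousAt_const.rpow h2 (Or.inl hV0.ne')
  have h2 : ContinuousAt (fun x : ℝ => V ^ (-x) / (1 + x)) β :=
    h1.div (by fun_prop) (by linarith)
  have h3 : ContinuousAt (fun x : ℝ => x / (2 * V)) β := by fun_prop
  have h4 : ContinuousAt (fun x : ℝ => (1 : ℝ) - x) β := by fun_prop
  unfold lam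
  exact (continuousAt_id.mul ((h4.sub h3).add h2)).div ((h4.add h3).sub h2) hden.ne'

private lemma above {γ : ℝ} (hγ : 1 < γ)
    (heq : (1 + γ) ^ (1 / (2 + γ)) * (1 + 1 / (1 + γ)) = 1 + 1 / γ) {a : ℝ} (ha : 0 < a) :
    ∃ r, γ / (2 * (2 + γ)) < r ∧ RateFrom a r := by
  set β : ℝ := 1 / (1 + γ) with hβd
  have hβ : 0 < β := by positivity
  have hβ2 : β < 1 / 2 := by
    rw [hβd]
    apply div_lt_div_of_pos_left one_pos (by norm_num)
    linarith
  have hβ1 : β < 1 := by linarith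
  -- the critical equation
  have hcrit : zeta β * β = 1 - β := by
    set u : ℝ := (1 + γ) ^ (1 / (2 + γ)) with hu
    have hu0 : 0 < u := Real.rpow_pos_of_pos (by linarith) _
    have hupow : u ^ (1 + γ) = (1 + γ) / u := by
      rw [eq_div_iff hu0.ne']
      nth_rewrite 2 [← Real.rpow_one u]
      rw [← Real.rpow_add hu0, hu, ← Real.rpow_mul (by linarith)]
      have : 1 / (2 + γ) * (1 + γ + 1) = 1 := by
        field_simp
        ring
      rw [this, Real.rpow_one]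
    have h1 : 1 - β ^ 2 = u⁻¹ := by
      have h2 : u * (1 + 1 / (1 + γ)) = 1 + 1 / γ := heq
      have h3 : u = (1 + γ) ^ 2 / (γ * (2 + γ)) := by
        field_simp at h2 ⊢
        linarith
      rw [h3, hβd]
      field_simp
      ring
    unfold zeta
    rw [h1, Real.inv_rpow hu0.le, ← Real.rpow_neg hu0.le, neg_neg, hβd, one_div_one_div, hupow]
    have h4 : u⁻¹ = 1 - β ^ 2 := h1.symm
    have h5 : (1 + γ) / u = (1 + γ) * (1 - β ^ 2) := by rw [div_eq_mul_inv, h4]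
    rw [h5, hβd]
    field_simp
    ring
  obtain ⟨V, hV, hl0, hl1, hl2⟩ := large_V hβ hβ2 hcrit ha
  have hden := den_pos hβ hβ2.le hV hl0
  have c1 := continuousAt_zeta hβ hβ1
  have c2 := continuousAt_lam hβ hV hden
  have e1 := c2.eventually (eventually_gt_nhds hl0)
  have e2 : ∀ᶠ x in 𝓝 β, lam x V < 2 * (1 - x ^ 2) := by
    have c3 : ContinuousAt (fun x : ℝ => 2 * (1 - x ^ 2)) β := by fun_prop
    exact c2.eventually_lt c3 hl1
  have e3 : ∀ᶠ x in 𝓝 β, (lam x V + x) / (2 * V) < a ^ 2 * (zeta x * lam x V - 1 + x) := by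
    have c3 : ContinuousAt (fun x : ℝ => (lam x V + x) / (2 * V)) β :=
      (c2.add continuousAt_id).div_const _
    have c4 : ContinuousAt (fun x : ℝ => a ^ 2 * (zeta x * lam x V - 1 + x)) β :=
      continuousAt_const.mul (((c1.mul c2).sub continuousAt_const).add continuousAt_id)
    exact c3.eventually_lt c4 hl2
  have e4 := eventually_gt_nhds hβ
  have e5 := eventually_nhdsWithin_of_eventually_nhds (s := Set.Iio β)
    (e1.and (e2.and (e3.and e4)))
  obtain ⟨x, ⟨h1, h2, h3, h4⟩, h5⟩ := (e5.and self_mem_nhdsWithin).exists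
  have h5' : x < β := h5
  refine ⟨(1 - x) / (2 * (1 + x)), ?_, general' x V (zeta x) h4 (by linarith) hV le_rfl ha.le
    h1 h3 h2⟩
  have h6 : γ / (2 * (2 + γ)) = (1 - β) / (2 * (1 + β)) := by
    rw [hβd]
    field_simp
    ring
  rw [h6, div_lt_div_iff₀ (by positivity) (by positivity)]
  nlinarith

private lemma exists_gamma : ∃ γ : ℝ, 1 < γ ∧ γ < 2 ∧
    (1 + γ) ^ (1 / (2 + γ)) * (1 + 1 / (1 + γ)) = 1 + 1 / γ := by
  set f : ℝ → ℝ := fun γ => (1 + γ) ^ (1 / (2 + γ)) * (1 + 1 / (1 + γ)) - (1 + 1 / γ) with hf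
  have hc : ContinuousOn f (Set.Icc 1 2) := by
    intro x hx
    have hx0 : 0 < x := by linarith [hx.1]
    have c1 : ContinuousAt (fun γ : ℝ => 1 + γ) x := by fun_prop
    have c2 : ContinuousAt (fun γ : ℝ => 1 / (2 + γ)) x :=
      continuousAt_const.div (by fun_prop) (by positivity)
    have c3 : ContinuousAt (fun γ : ℝ => 1 / (1 + γ)) x :=
      continuousAt_const.div (by fun_prop) (by positivity)
    have c4 : ContinuousAt (fun γ : ℝ => 1 / γ) x :=
      continuousAt_const.div continuousAt_id hx0.ne'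
    have c5 : ContinuousAt (fun γ : ℝ => (1 + γ) ^ (1 / (2 + γ))) x :=
      c1.rpow c2 (Or.inl (by positivity))
    exact ((c5.mul (continuousAt_const.add c3)).sub
      (continuousAt_const.add c4)).continuousWithinAt
  have h1 : f 1 < 0 := by
    simp only [hf]
    have h2 : ((1 : ℝ) + 1) ^ (1 / ((2 : ℝ) + 1)) < 4 / 3 := by
      have h3 : ((1 : ℝ) + 1) < (4 / 3) ^ (3 : ℝ) := by
        rw [show (3 : ℝ) = ((3 : ℕ) : ℝ) by norm_num, Real.rpow_natCast]
        norm_num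
      have h4 := Real.rpow_lt_rpow (by norm_num) h3 (by norm_num : (0 : ℝ) < 1 / (2 + 1))
      rw [← Real.rpow_mul (by norm_num)] at h4
      norm_num at h4 ⊢
      exact h4
    norm_num at h2 ⊢
    linarith
  have h2 : 0 < f 2 := by
    simp only [hf]
    have h2 : (9 / 8 : ℝ) < ((1 : ℝ) + 2) ^ (1 / ((2 : ℝ) + 2)) := by
      have h3 : (9 / 8 : ℝ) ^ (4 : ℝ) < (1 : ℝ) + 2 := by
        rw [show (4 : ℝ) = ((4 : ℕ) : ℝ) by norm_num, Real.rpow_natCast]
        norm_num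
      have h4 := Real.rpow_lt_rpow (by positivity) h3 (by norm_num : (0 : ℝ) < 1 / (2 + 2))
      rw [← Real.rpow_mul (by norm_num)] at h4
      norm_num at h4 ⊢
      exact h4
    norm_num at h2 ⊢
    linarith
  obtain ⟨x, hx, hx0⟩ := intermediate_value_Icc (by norm_num : (1 : ℝ) ≤ 2) hc
    (show (0 : ℝ) ∈ Set.Icc (f 1) (f 2) from ⟨h1.le, h2.le⟩)
  refine ⟨x, lt_of_le_of_ne hx.1 ?_, lt_of_le_of_ne hx.2 ?_, ?_⟩
  · rintro rfl
    linarith
  · rintro rfl
    linarith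
  · simp only [hf] at hx0
    linarith

end proof

/-- Upper bounds `γ(m, RB(C₁, C₂)) ≤ C m^{-r}` for the whole curve of pairs `(C₁, r)` with
`C₁² = T(β, V)`, `r = (1 - β) / (2 (1 + β))`. For every `C₁ > 0` one gets an exponent above
`γ / (2 (2 + γ)) = 0.1827...`, where `γ` is the root of the equation which gives the exact
exponent for general dictionaries; and there are six explicit pairs. -/
theorem result :
    (∀ β V a : ℝ, 0 < β → β ≤ 1 / 2 → 1 ≤ V → 1 - β < zeta β * lam β V →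
      zeta β * lam β V < 2 → 0 ≤ a → T β V < a ^ 2 → RateFrom a ((1 - β) / (2 * (1 + β)))) ∧
    ((∃ γ : ℝ, 1 < γ ∧ γ < 2 ∧ (1 + γ) ^ (1 / (2 + γ)) * (1 + 1 / (1 + γ)) = 1 + 1 / γ) ∧
      ∀ γ : ℝ, 1 < γ → (1 + γ) ^ (1 / (2 + γ)) * (1 + 1 / (1 + γ)) = 1 + 1 / γ →
        ∀ a : ℝ, 0 < a → ∃ r : ℝ, γ / (2 * (2 + γ)) < r ∧ RateFrom a r) ∧
    RateFrom 0.642 (9 / 20) ∧ RateFrom 0.605 (2 / 5) ∧ RateFrom 0.539 (1 / 3) ∧
    RateFrom 0.494 (3 / 10) ∧ RateFrom 0.401 (1 / 4) ∧ RateFrom 0.222 (1 / 5) :=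
  ⟨fun β V _ hβ hβ2 hV h1 h2 ha haT => general β V hβ hβ2 hV h1 h2 ha haT,
    ⟨exists_gamma, fun _ hγ heq _ ha => above hγ heq ha⟩,
    tab1, tab2, tab3, tab4, tab5, tab6⟩

end Pool.Agent.Results.MP_3cbb73_an.UpperRateAllC1
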